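import Pool.Agent.Lib.MP_577a3c26_an.Defs

namespace Pool.Agent.Lib.MP_577a3c26_an

/-- The sets used in the Baire category argument. -/
def baiS {T ι : Type} (Zr : ι → Set T) (m : ℕ) (δ : ℝ) (n : ℕ) :
    Set (Fin (m + 1) → ι → ℝ) :=
  {z | ∃ A : Fin n → T, ∀ v, (∀ s, A s ∈ Zr v) → ∀ l, |z l v| ≤ δ}

theorem bai_closed {T ι : Type} [TopologicalSpace T] [CompactSpace T]
    (Zr : ι → Set T) (hZ : ∀ v, IsOpen (Zr v)) (m : ℕ) (δ : ℝ) (n : ℕ) :
    IsClosed (baiS Zr m δ n) := by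
  set F : Set ((Fin n → T) × (Fin (m + 1) → ι → ℝ)) :=
    {p | ∀ v, (∀ s, p.1 s ∈ Zr v) → ∀ l, |p.2 l v| ≤ δ} with hF
  have hFc : IsClosed F := by
    have h1 : Fᶜ = ⋃ v, ⋃ l, {p : (Fin n → T) × (Fin (m + 1) → ι → ℝ) |
        (∀ s, p.1 s ∈ Zr v) ∧ δ < |p.2 l v|} := by
      ext p
      simp only [hF, Set.mem_compl_iff, Set.mem_ofPred_eq, Set.mem_iUnion]
      push Not
      constructor
      · rintro ⟨v, hv, l, hl⟩
        exact ⟨v, l, hv, hl⟩
      · rintro ⟨v, l, hv, hl⟩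
        exact ⟨v, hv, l, hl⟩
    rw [← isOpen_compl_iff, h1]
    refine isOpen_iUnion fun v => isOpen_iUnion fun l => ?_
    apply IsOpen.and
    · have h2 : {p : (Fin n → T) × (Fin (m + 1) → ι → ℝ) | ∀ s, p.1 s ∈ Zr v} =
          ⋂ s, {p : (Fin n → T) × (Fin (m + 1) → ι → ℝ) | p.1 s ∈ Zr v} := by
        ext p
        simp
      rw [h2]
      apply isOpen_iInter_of_finite
      intro s
      exact (hZ v).preimage ((continuous_apply s).comp continuous_fst)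
    · apply isOpen_lt continuous_const
      have h5 : Continuous fun p : (Fin n → T) × (Fin (m + 1) → ι → ℝ) => p.2 l v :=
        (continuous_apply v).comp ((continuous_apply l).comp continuous_snd)
      exact h5.abs
  have h3 : baiS Zr m δ n = Prod.snd '' F := by
    ext z
    constructor
    · rintro ⟨A, hA⟩
      exact ⟨(A, z), hA, rfl⟩
    · rintro ⟨⟨A, z'⟩, hA, rfl⟩
      exact ⟨A, hA⟩
  rw [h3]
  exact isClosedMap_snd_of_compactSpace F hFc

theorem bai_cover {T ι : Type} [Nonempty T] (Zr : ι → Set T) (Y : Set (ι → ℝ))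
    (hC : ∀ φ ∈ Y, ∀ δ : ℝ, 0 < δ → ∃ A : Set T, A.Finite ∧ ∀ v, A ⊆ Zr v → |φ v| ≤ δ)
    (m : ℕ) (δ : ℝ) (hδ : 0 < δ) (z : Fin (m + 1) → ι → ℝ) (hz : ∀ l, z l ∈ Y) :
    ∃ n, z ∈ baiS Zr m δ n := by
  choose A hAf hA using fun l => hC (z l) (hz l) δ hδ
  have hfin : (⋃ l, A l).Finite := Set.finite_iUnion hAf
  obtain ⟨n, f, hf⟩ := hfin.fin_embedding
  refine ⟨n, f, fun v hv l => hA l v ?_⟩
  intro a ha
  have h1 : a ∈ ⋃ l, A l := Set.mem_iUnion.2 ⟨l, ha⟩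
  rw [← hf] at h1
  obtain ⟨s, rfl⟩ := h1
  exact hv s

/-- Second Baire category argument, in the closed convex hull of the tuples of functionals. -/
theorem baire2 {T ι : Type} [TopologicalSpace T] [CompactSpace T] [T2Space T] [Nonempty T]
    (Zr : ι → Set T) (hZ : ∀ v, IsOpen (Zr v))
    (Y : Set (ι → ℝ)) (hYc : IsCompact Y) (hYconv : Convex ℝ Y)
    (hC : ∀ φ ∈ Y, ∀ δ : ℝ, 0 < δ → ∃ A : Set T, A.Finite ∧ ∀ v, A ⊆ Zr v → |φ v| ≤ δ)
    (m : ℕ) (P : Set (T × (Fin (m + 1) → ι → ℝ))) (hP : P.Nonempty)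
    (hPY : ∀ p ∈ P, ∀ l, p.2 l ∈ Y) (δ : ℝ) (hδ : 0 < δ) :
    ∃ (n r : ℕ) (α : Fin r → ℝ) (p : Fin r → T × (Fin (m + 1) → ι → ℝ))
      (O : Set (Fin (m + 1) → ι → ℝ)),
      (∀ i, 0 ≤ α i) ∧ ∑ i, α i = 1 ∧ (∀ i, p i ∈ P) ∧ IsOpen O ∧ 0 ∈ O ∧ Convex ℝ O ∧
      ∀ z : Fin r → (Fin (m + 1) → ι → ℝ), (∀ i, z i ∈ convexHull ℝ (Prod.snd '' P)) →
        (∀ i, z i - (p i).2 ∈ O) →
        ∃ A : Fin n → T, ∀ v, (∀ s, A s ∈ Zr v) → ∀ l, |(∑ i, α i • z i) l v| ≤ δ := by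
  set C : Set (Fin (m + 1) → ι → ℝ) := convexHull ℝ (Prod.snd '' P) with hCdef
  set K : Set (Fin (m + 1) → ι → ℝ) := Set.univ.pi fun _ => Y with hKdef
  have hKc : IsCompact K := isCompact_univ_pi fun _ => hYc
  have hKconv : Convex ℝ K := convex_pi fun _ _ => hYconv
  have hCK : C ⊆ K := by
    apply convexHull_min _ hKconv
    rintro _ ⟨p, hp, rfl⟩
    exact fun l _ => hPY p hp l
  set Z : Set (Fin (m + 1) → ι → ℝ) := closure C with hZdef
  have hZK : Z ⊆ K := closure_minimal hCK hKc.isClosed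
  have hZc : IsCompact Z := hKc.of_isClosed_subset isClosed_closure hZK
  have : CompactSpace Z := isCompact_iff_compactSpace.1 hZc
  have hCne : C.Nonempty := (hP.image _).convexHull
  have : Nonempty Z := (hCne.mono subset_closure).to_subtype
  have hfc : ∀ n : ℕ, IsClosed ((Subtype.val : Z → _) ⁻¹' (baiS Zr m δ n)) := fun n =>
    (bai_closed Zr hZ m δ n).preimage continuous_subtype_val
  have hfU : ⋃ n : ℕ, (Subtype.val : Z → _) ⁻¹' (baiS Zr m δ n) = Set.univ := by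
    apply Set.eq_univ_of_forall
    intro z
    obtain ⟨n, hn⟩ := bai_cover Zr Y hC m δ hδ z.1 fun l => hZK z.2 l (Set.mem_univ l)
    exact Set.mem_iUnion.2 ⟨n, hn⟩
  obtain ⟨n, z0, hz0⟩ := nonempty_interior_of_iUnion_of_closed hfc hfU
  rw [mem_interior] at hz0
  obtain ⟨V, hVs, hVo, hzV⟩ := hz0
  obtain ⟨W, hWo, rfl⟩ := isOpen_induced_iff.1 hVo
  have hW : ∀ z ∈ Z, z ∈ W → z ∈ baiS Zr m δ n := fun z hz hzW => hVs (a := ⟨z, hz⟩) hzW
  obtain ⟨w0, hw0W, hw0C⟩ := mem_closure_iff.1 z0.2 W hWo hzV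
  rw [hCdef, mem_convexHull_iff_exists_fintype] at hw0C
  obtain ⟨J, hJ, w, y, hw0, hw1, hy, hsum⟩ := hw0C
  choose q hqP hq using hy
  set e := Fintype.equivFin J with he
  -- a convex open neighbourhood
  have hnhds : {o : Fin (m + 1) → ι → ℝ | w0 + o ∈ W} ∈ nhds (0 : Fin (m + 1) → ι → ℝ) := by
    have h1 : IsOpen {o : Fin (m + 1) → ι → ℝ | w0 + o ∈ W} :=
      hWo.preimage (continuous_const.add continuous_id)
    exact h1.mem_nhds (by simpa using hw0W)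
  obtain ⟨O, ⟨hO0, hOo, hOc⟩, hOW⟩ :=
    (LocallyConvexSpace.convex_open_basis_zero ℝ (Fin (m + 1) → ι → ℝ)).mem_iff.1 hnhds
  refine ⟨n, Fintype.card J, fun i => w (e.symm i), fun i => q (e.symm i), O,
    fun i => hw0 _, ?_, fun i => hqP _, hOo, hO0, hOc, ?_⟩
  · rw [← hw1]
    exact Equiv.sum_comp e.symm w
  · intro z hzC hzO
    have hwsum : ∑ i, w (e.symm i) = 1 := by
      rw [← hw1]
      exact Equiv.sum_comp e.symm w
    have h1 : ∑ i, w (e.symm i) • z i ∈ C :=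
      (convex_convexHull ℝ _).sum_mem (fun i _ => hw0 _) hwsum fun i _ => hzC i
    have h2 : ∑ i, w (e.symm i) • (z i - (q (e.symm i)).2) ∈ O :=
      hOc.sum_mem (fun i _ => hw0 _) hwsum fun i _ => hzO i
    have h3 : w0 = ∑ i, w (e.symm i) • (q (e.symm i)).2 := by
      rw [← hsum, ← Equiv.sum_comp e.symm (fun i => w i • y i)]
      apply Finset.sum_congr rfl
      intro i _
      rw [hq]
    have h4 : ∑ i, w (e.symm i) • z i = w0 + ∑ i, w (e.symm i) • (z i - (q (e.symm i)).2) := by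
      rw [h3, ← Finset.sum_add_distrib]
      apply Finset.sum_congr rfl
      intro i _
      rw [smul_sub]
      abel
    have h5 : ∑ i, w (e.symm i) • z i ∈ W := by
      rw [h4]
      exact hOW h2
    exact hW _ (subset_closure h1) h5

end Pool.Agent.Lib.MP_577a3c26_an
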