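import Pool.Agent.Lib.MP_577a3c26_an.Defs

namespace Pool.Agent.Lib.MP_577a3c26_an

private theorem bump_one {T : Type} [TopologicalSpace T] [CompactSpace T] [T2Space T] {x : T}
    {W : Set T} (hW : IsOpen W) (hx : x ∈ W) :
    ∃ (b : C(T, ℝ)) (V V' : Set T), IsClosed V ∧ IsOpen V' ∧ V ⊆ W ∧ x ∈ V' ∧ V' ⊆ V ∧
      (∀ t, 0 ≤ b t ∧ b t ≤ 1) ∧ (∀ t ∉ V, b t = 0) ∧ ∀ t ∈ V', b t = 1 := by
  obtain ⟨V1, hV1o, hxV1, hV1⟩ := normal_exists_closure_subset (isClosed_singleton (x := x)) hW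
    (Set.singleton_subset_iff.2 hx)
  obtain ⟨V2, hV2o, hxV2, hV2⟩ := normal_exists_closure_subset (isClosed_singleton (x := x)) hV1o
    hxV1
  obtain ⟨f, hf0, hf1, hf⟩ := exists_continuous_zero_one_of_isClosed
    (hV1o.isClosed_compl) (isClosed_closure (s := V2))
    (Set.disjoint_left.2 fun t h1 h2 => h1 (hV2 h2))
  refine ⟨f, closure V1, V2, isClosed_closure, hV2o, hV1, Set.singleton_subset_iff.1 hxV2,
    (subset_closure.trans hV2).trans subset_closure, fun t => hf t, ?_, ?_⟩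
  · intro t ht
    exact hf0 (fun h => ht (subset_closure h))
  · intro t ht
    exact hf1 (subset_closure ht)

/-- Bump functions on a compact Hausdorff space. -/
theorem hasBumps (T : Type) [TopologicalSpace T] [CompactSpace T] [T2Space T] :
    HasBumps (fun v : {v : C(T, ℝ) // ∀ x, 0 ≤ v x ∧ v x ≤ 1} => interior {x | v.1 x = 0})
      (fun v : {v : C(T, ℝ) // ∀ x, 0 ≤ v x ∧ v x ≤ 1} => interior {x | v.1 x = 1}) := by
  intro S _ _ x hx A0 hA0 hxA
  have hfin : (Set.range x ∪ A0).Finite := (Set.finite_range x).union hA0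
  obtain ⟨U, hU, hUd⟩ := hfin.t2_separation
  have hdis : ∀ s s', s ≠ s' → Disjoint (U (x s)) (U (x s')) := by
    intro s s' hss
    exact hUd (Or.inl ⟨s, rfl⟩) (Or.inl ⟨s', rfl⟩) (fun h => hss (hx h))
  refine ⟨fun s => U (x s), hdis, ?_, ?_⟩
  · intro s
    rw [Set.disjoint_left]
    intro a ha haA
    have h1 : Disjoint (U (x s)) (U a) :=
      hUd (Or.inl ⟨s, rfl⟩) (Or.inr haA) (fun h => hxA s (by rw [h]; exact haA))
    exact Set.disjoint_left.1 h1 ha (hU a).1
  · choose b V V' hVc hV'o hVW hxV' hV'V hb hb0 hb1 using fun s : S =>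
      bump_one (hU (x s)).2 (hU (x s)).1
    intro D
    have hz : ∀ s t, t ∉ U (x s) → b s t = 0 := fun s t ht => hb0 s t fun h => ht (hVW s h)
    -- the value of the sum at a point of `U (x s)`
    have hval : ∀ s t, t ∈ U (x s) → ∑ s' ∈ D, b s' t = if s ∈ D then b s t else 0 := by
      intro s t ht
      rw [← Finset.sum_ite_eq D s (fun s' => b s' t)]
      refine Finset.sum_congr rfl fun s' _ => ?_
      split_ifs with h
      · rfl
      · exact hz s' t fun h' => Set.disjoint_left.1 (hdis s s' h) ht h'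
    have hval0 : ∀ t, (∀ s ∈ D, t ∉ V s) → ∑ s' ∈ D, b s' t = 0 := by
      intro t ht
      exact Finset.sum_eq_zero fun s hs => hb0 s t (ht s hs)
    have hbd : ∀ t, 0 ≤ (∑ s ∈ D, b s) t ∧ (∑ s ∈ D, b s) t ≤ 1 := by
      intro t
      rw [ContinuousMap.sum_apply]
      refine ⟨Finset.sum_nonneg fun s _ => (hb s t).1, ?_⟩
      by_cases h : ∃ s, t ∈ U (x s)
      · obtain ⟨s, hs⟩ := h
        rw [hval s t hs]
        split_ifs
        · exact (hb s t).2
        · exact zero_le_one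
      · rw [hval0 t fun s _ hs => h ⟨s, hVW s hs⟩]
        exact zero_le_one
    refine ⟨⟨∑ s ∈ D, b s, hbd⟩, ?_, ?_⟩
    · intro s hs
      refine mem_interior.2 ⟨V' s, ?_, hV'o s, hxV' s⟩
      intro t ht
      rw [Set.mem_ofPred_eq, ContinuousMap.sum_apply, hval s t (hVW s (hV'V s ht)), if_pos hs]
      exact hb1 s t ht
    · intro a ha
      refine mem_interior.2 ⟨⋂ s ∈ D, (V s)ᶜ, ?_, ?_, ?_⟩
      · intro t ht
        rw [Set.mem_ofPred_eq, ContinuousMap.sum_apply]
        rw [Set.mem_iInter₂] at ht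
        exact hval0 t ht
      · exact isOpen_biInter_finset fun s _ => (hVc s).isOpen_compl
      · rw [Set.mem_iInter₂]
        intro s hs h
        exact ha s hs (hVW s h)

end Pool.Agent.Lib.MP_577a3c26_an
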