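import Mathlib

namespace Pool.Agent.Lib.MP_577a3c26_an

private theorem comb_enum (H : Finset ℕ) : ∃ h : ℕ → ℕ, (∀ i < H.card, h i ∈ H) ∧
    (∀ i j, i < j → j < H.card → h i < h j) := by
  have hf : ({x | x ∈ H} : Set ℕ).Finite := by
    exact H.finite_toSet
  have hcard : ∀ hf : ({x | x ∈ H} : Set ℕ).Finite, hf.toFinset.card = H.card := by
    intro hf
    congr 1
    ext x
    simp
  refine ⟨Nat.nth (· ∈ H), ?_, ?_⟩
  · intro i hi
    exact Nat.nth_mem i (fun hf => by rw [hcard]; exact hi)
  · intro i j hij hj
    exact Nat.nth_strictMonoOn hf (by simp only [Set.mem_Iio]; rw [hcard]; omega)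
      (by simp only [Set.mem_Iio]; rw [hcard]; omega) hij

private theorem comb_pos (Q : Finset ℕ) (s : ℕ) (hs : s < Q.card) :
    ∃ q ∈ Q, Nat.count (· ∈ Q) (q + 1) = s + 1 := by
  have hcard : ∀ hf : ({x | x ∈ Q} : Set ℕ).Finite, hf.toFinset.card = Q.card := by
    intro hf
    congr 1
    ext x
    simp
  have h1 : Nat.nth (· ∈ Q) s ∈ Q := Nat.nth_mem s (fun hf => by rw [hcard]; exact hs)
  refine ⟨Nat.nth (· ∈ Q) s, h1, ?_⟩
  rw [Nat.count_succ, Nat.count_nth (fun hf => by rw [hcard]; exact hs), if_pos h1]

private theorem comb_count_le (Q : Finset ℕ) (m : ℕ) : Nat.count (· ∈ Q) m ≤ Q.card := by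
  rw [Nat.count_eq_card_filter_range]
  apply Finset.card_le_card
  intro x hx
  exact (Finset.mem_filter.1 hx).2

/-- Selection lemma: `H` is a large set of natural numbers, `X` a well spaced subset with `N` elements; after
deleting at most `n` bad elements one can find a `k`-element set `D` that contains the good elements of `X`, at
positions in the prescribed set `Q`. -/
theorem comb (k N n : ℕ) :
    ∃ M : ℕ, ∀ Q : Finset ℕ, Q ⊆ Finset.range k → Q.card = N →
      ∀ H : Finset ℕ, H.card = M → ∃ X : Finset ℕ, X ⊆ H ∧ X.card = N ∧
        ∀ Bad : Finset ℕ, Bad.card ≤ n → ∃ D : Finset ℕ, D ⊆ H \ Bad ∧ D.card = k ∧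
          ∀ x ∈ X \ Bad, x ∈ D ∧ (D.filter (· < x)).card ∈ Q := by
  classical
  obtain ⟨P, hP⟩ : ∃ P, P = (k + 1) * (n + 1) + 1 := ⟨_, rfl⟩
  have hPpos : 0 < P := by omega
  refine ⟨P * (N + 2), ?_⟩
  intro Q hQk hQN H hH
  obtain ⟨h, hmem, hmono⟩ := comb_enum H
  rw [hH] at hmem hmono
  have hinj : ∀ i j, i < P * (N + 2) → j < P * (N + 2) → h i = h j → i = j := by
    intro i j hi hj hij
    rcases lt_trichotomy i j with hlt | heq | hgt
    · have := hmono i j hlt hj
      omega
    · exact heq
    · have := hmono j i hgt hi
      omega
  have hbound : ∀ s t, s ≤ N → t < P → P * s + t < P * (N + 2) := by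
    intro s t hs ht
    calc P * s + t < P * s + P := by omega
      _ = P * (s + 1) := by ring
      _ ≤ P * (N + 2) := Nat.mul_le_mul_left _ (by omega)
  refine ⟨(Finset.range N).image fun s => h (P * (s + 1)), ?_, ?_, ?_⟩
  · intro x hx
    obtain ⟨s, hs, rfl⟩ := Finset.mem_image.1 hx
    rw [Finset.mem_range] at hs
    have := hbound (s + 1) 0 (by omega) hPpos
    exact hmem _ (by simpa using this)
  · rw [Finset.card_image_of_injOn, Finset.card_range]
    intro s hs t ht hst
    have hs' : s < N := by simpa using hs
    have ht' : t < N := by simpa using ht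
    have h1 := hinj _ _ (by simpa using hbound (s + 1) 0 (by omega) hPpos)
      (by simpa using hbound (t + 1) 0 (by omega) hPpos) hst
    have := Nat.eq_of_mul_eq_mul_left hPpos h1
    omega
  · intro Bad hBad
    -- the good offset
    obtain ⟨b, hb, hbgood⟩ : ∃ b ≤ n, ∀ s ≤ N, ∀ e ≤ k,
        h (P * s + (1 + b * (k + 1) + e)) ∉ Bad := by
      by_contra hcon
      push Not at hcon
      choose! s hs e he hbad using hcon
      have hoff : ∀ b ≤ n, 1 + b * (k + 1) + e b < P := by
        intro b hb
        have h1 := he b hb
        have h2 : b * (k + 1) ≤ n * (k + 1) := Nat.mul_le_mul_right _ hb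
        have h3 : P = n * (k + 1) + (k + 1) + 1 := by rw [hP]; ring
        omega
      have hcard : (Finset.range (n + 1)).card ≤ Bad.card := by
        apply Finset.card_le_card_of_injOn
          (fun b => h (P * s b + (1 + b * (k + 1) + e b)))
        · intro b hb
          have hb' : b ≤ n := by
            have := Finset.mem_range.1 (Finset.mem_coe.1 hb)
            omega
          exact hbad b hb'
        · intro b hb c hc hbc
          have hb' : b ≤ n := by
            have := Finset.mem_range.1 (Finset.mem_coe.1 hb)
            omega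
          have hc' : c ≤ n := by
            have := Finset.mem_range.1 (Finset.mem_coe.1 hc)
            omega
          have h1 := hinj _ _ (hbound _ _ (hs b hb') (hoff b hb'))
            (hbound _ _ (hs c hc') (hoff c hc')) hbc
          have h2 : (P * s b + (1 + b * (k + 1) + e b)) % P =
            (P * s c + (1 + c * (k + 1) + e c)) % P := by rw [h1]
          rw [Nat.mul_add_mod, Nat.mul_add_mod, Nat.mod_eq_of_lt (hoff b hb'),
            Nat.mod_eq_of_lt (hoff c hc')] at h2
          have h3 := he b hb'
          have h4 := he c hc'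
          rcases lt_trichotomy b c with hlt | heq | hgt
          · have : (b + 1) * (k + 1) ≤ c * (k + 1) := Nat.mul_le_mul_right _ hlt
            have h5 : (b + 1) * (k + 1) = b * (k + 1) + (k + 1) := by ring
            omega
          · exact heq
          · have : (c + 1) * (k + 1) ≤ b * (k + 1) := Nat.mul_le_mul_right _ hgt
            have h5 : (c + 1) * (k + 1) = c * (k + 1) + (k + 1) := by ring
            omega
      rw [Finset.card_range] at hcard
      omega
    have hoff : ∀ e ≤ k, 1 + b * (k + 1) + e < P := by
      intro e he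
      have h2 : b * (k + 1) ≤ n * (k + 1) := Nat.mul_le_mul_right _ hb
      have h3 : P = n * (k + 1) + (k + 1) + 1 := by rw [hP]; ring
      omega
    -- the index function
    let σ : ℕ → ℕ := fun q => Nat.count (· ∈ Q) (q + 1)
    let off : ℕ → ℕ := fun q => if q ∈ Q ∧ h (P * σ q) ∉ Bad then 0 else 1 + b * (k + 1) + q
    let g : ℕ → ℕ := fun q => h (P * σ q + off q)
    have hσN : ∀ q, σ q ≤ N := fun q => by
      have := comb_count_le Q (q + 1)
      rw [hQN] at this
      exact this
    have hσmono : ∀ q q', q ≤ q' → σ q ≤ σ q' := fun q q' hq =>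
      Nat.count_monotone _ (by omega)
    have hoffP : ∀ q < k, off q < P := by
      intro q hq
      show (if q ∈ Q ∧ h (P * σ q) ∉ Bad then 0 else 1 + b * (k + 1) + q) < P
      split_ifs
      · exact hPpos
      · exact hoff q hq.le
    have hgmono : ∀ q q', q < q' → q' < k → g q < g q' := by
      intro q q' hqq hq'
      apply hmono
      · have h1 := hσmono q q' hqq.le
        rcases Nat.lt_or_ge (σ q) (σ q') with hlt | hge
        · calc P * σ q + off q < P * σ q + P := by
                have := hoffP q (by omega)
                omega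
            _ = P * (σ q + 1) := by ring
            _ ≤ P * σ q' := Nat.mul_le_mul_left _ hlt
            _ ≤ P * σ q' + off q' := Nat.le_add_right _ _
        · have h2 : σ q = σ q' := by omega
          have h3 : q' ∉ Q := by
            intro hmemQ
            have h4 : σ q' = Nat.count (· ∈ Q) q' + 1 := by
              show Nat.count (· ∈ Q) (q' + 1) = _
              rw [Nat.count_succ, if_pos hmemQ]
            have h5 : σ q ≤ Nat.count (· ∈ Q) q' := Nat.count_monotone _ (by omega)
            omega
          have h4 : off q' = 1 + b * (k + 1) + q' := by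
            show (if q' ∈ Q ∧ h (P * σ q') ∉ Bad then 0 else 1 + b * (k + 1) + q') = _
            rw [if_neg (fun hh => h3 hh.1)]
          have h5 : off q ≤ 1 + b * (k + 1) + q := by
            show (if q ∈ Q ∧ h (P * σ q) ∉ Bad then 0 else 1 + b * (k + 1) + q) ≤ _
            split_ifs
            · omega
            · exact le_rfl
          rw [h2]
          omega
      · exact hbound _ _ (hσN q') (hoffP q' hq')
    have hginj : ∀ q q', q < k → q' < k → g q = g q' → q = q' := by
      intro q q' hq hq' hqq
      rcases lt_trichotomy q q' with hlt | heq | hgt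
      · have := hgmono q q' hlt hq'
        omega
      · exact heq
      · have := hgmono q' q hgt hq
        omega
    refine ⟨(Finset.range k).image g, ?_, ?_, ?_⟩
    · intro x hx
      obtain ⟨q, hq, rfl⟩ := Finset.mem_image.1 hx
      rw [Finset.mem_range] at hq
      rw [Finset.mem_sdiff]
      refine ⟨hmem _ (hbound _ _ (hσN q) (hoffP q hq)), ?_⟩
      by_cases hc : q ∈ Q ∧ h (P * σ q) ∉ Bad
      · have h1 : off q = 0 := if_pos hc
        show h (P * σ q + off q) ∉ Bad
        rw [h1, add_zero]
        exact hc.2
      · have h1 : off q = 1 + b * (k + 1) + q := if_neg hc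
        show h (P * σ q + off q) ∉ Bad
        rw [h1]
        exact hbgood _ (hσN q) q hq.le
    · rw [Finset.card_image_of_injOn, Finset.card_range]
      intro q hq q' hq' hqq
      exact hginj q q' (by simpa using hq) (by simpa using hq') hqq
    · intro x hx
      rw [Finset.mem_sdiff] at hx
      obtain ⟨hx1, hx2⟩ := hx
      obtain ⟨s, hs, hsx⟩ := Finset.mem_image.1 hx1
      rw [Finset.mem_range] at hs
      obtain ⟨q, hq, hqs⟩ := comb_pos Q s (by omega)
      have hqk : q < k := Finset.mem_range.1 (hQk hq)
      have hgx : g q = x := by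
        have h1 : σ q = s + 1 := hqs
        have h2 : off q = 0 := by
          show (if q ∈ Q ∧ h (P * σ q) ∉ Bad then 0 else 1 + b * (k + 1) + q) = _
          rw [if_pos]
          refine ⟨hq, ?_⟩
          rw [h1]
          have : h (P * (s + 1)) = x := hsx
          rw [this]
          exact hx2
        show h (P * σ q + off q) = x
        rw [h1, h2, add_zero]
        exact hsx
      refine ⟨Finset.mem_image.2 ⟨q, Finset.mem_range.2 hqk, hgx⟩, ?_⟩
      have h1 : ((Finset.range k).image g).filter (· < x) = (Finset.range q).image g := by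
        ext y
        rw [Finset.mem_filter, Finset.mem_image, Finset.mem_image]
        constructor
        · rintro ⟨⟨q', hq', rfl⟩, hlt⟩
          refine ⟨q', ?_, rfl⟩
          rw [Finset.mem_range] at hq' ⊢
          by_contra hge
          rw [← hgx] at hlt
          rcases Nat.lt_or_ge q q' with h1 | h1
          · have := hgmono q q' h1 hq'
            omega
          · have : q' = q := by omega
            subst this
            omega
        · rintro ⟨q', hq', rfl⟩
          rw [Finset.mem_range] at hq'
          refine ⟨⟨q', Finset.mem_range.2 (by omega), rfl⟩, ?_⟩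
          rw [← hgx]
          exact hgmono q' q hq' hqk
      rw [h1, Finset.card_image_of_injOn, Finset.card_range]
      · exact hq
      · intro q1 hq1 q2 hq2 hqq
        have h3 : q1 < q := by simpa using hq1
        have h4 : q2 < q := by simpa using hq2
        exact hginj q1 q2 (by omega) (by omega) hqq

end Pool.Agent.Lib.MP_577a3c26_an
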