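import Mathlib

/-!
Definitions for MP_577a3c26_an.  `T` is a compact Hausdorff space, `ι` an index type (in the application the
continuous functions `v : T → [0,1]`), `Zr v` an open set on which `v` vanishes, `On v` an open set on which `v = 1`.
-/

namespace Pool.Agent.Lib.MP_577a3c26_an

/-- Existence of bump functions. -/
def HasBumps {T ι : Type} (Zr On : ι → Set T) : Prop :=
  ∀ (S : Type) [Fintype S] [DecidableEq S] (x : S → T), Function.Injective x →
    ∀ A0 : Set T, A0.Finite → (∀ s, x s ∉ A0) →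
      ∃ U : S → Set T, (∀ s s', s ≠ s' → Disjoint (U s) (U s')) ∧ (∀ s, Disjoint (U s) A0) ∧
        ∀ D : Finset S, ∃ v : ι, (∀ s ∈ D, x s ∈ On v) ∧ ∀ a, (∀ s ∈ D, a ∉ U s) → a ∈ Zr v

/-- The relation between points of `T` and tuples of functionals detecting them. -/
def Rel {T ι : Type} (On : ι → Set T) (Y : Set (ι → ℝ)) (m : ℕ) :
    Set (T × (Fin (m + 1) → ι → ℝ)) :=
  {p | (∀ l, p.2 l ∈ Y) ∧ ∀ v, p.1 ∈ On v → ∃ l, 1 / ((m : ℝ) + 1) ≤ |p.2 l v|}

end Pool.Agent.Lib.MP_577a3c26_an
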