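import Pool.Agent.Lib.MP_577a3c26_an.Defs

namespace Pool.Agent.Lib.MP_577a3c26_an

/-- Zorn's lemma: a compact relation whose projection contains a nonempty open set `U` has an irreducible closed
subrelation over `U`. -/
theorem irred_zorn {T X : Type} [TopologicalSpace T] [T2Space T] [TopologicalSpace X] [T2Space X]
    (D : Set (T × X)) (hD : IsCompact D) (U : Set T) (hU : IsOpen U) (hUn : U.Nonempty)
    (hUD : U ⊆ Prod.fst '' D) :
    ∃ P : Set (T × X), P.Nonempty ∧ P ⊆ D ∧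
      ∀ p ∈ P, ∀ W : Set X, IsOpen W → p.2 ∈ W →
        ∃ V : Set T, IsOpen V ∧ V.Nonempty ∧ ∀ x ∈ V, ∃ p' ∈ P, p'.1 = x ∧ p'.2 ∈ W := by
  classical
  let S : Set (Set (T × X)) := {E | IsClosed E ∧ E ⊆ D ∧ U ⊆ Prod.fst '' E}
  have hDS : D ∈ S := ⟨hD.isClosed, subset_rfl, hUD⟩
  obtain ⟨P, hPD, hPmin⟩ := zorn_superset_nonempty S (by
    intro c hcS hchain hcne
    refine ⟨⋂₀ c, ⟨isClosed_sInter fun E hE => (hcS hE).1, ?_, ?_⟩, fun s hs => Set.sInter_subset_of_mem hs⟩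
    · obtain ⟨E, hE⟩ := hcne
      exact (Set.sInter_subset_of_mem hE).trans (hcS hE).2.1
    · intro u hu
      have hne : Nonempty c := hcne.to_subtype
      have key : (⋂ E : c, ((E : Set (T × X)) ∩ Prod.fst ⁻¹' {u})).Nonempty := by
        apply IsCompact.nonempty_iInter_of_directed_nonempty_isCompact_isClosed
        · intro E F
          rcases hchain.total E.2 F.2 with h | h
          · exact ⟨E, subset_rfl, Set.inter_subset_inter_left _ h⟩
          · exact ⟨F, Set.inter_subset_inter_left _ h, subset_rfl⟩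
        · intro E
          obtain ⟨q, hq, hqu⟩ := (hcS E.2).2.2 hu
          exact ⟨q, hq, hqu⟩
        · intro E
          exact (hD.of_isClosed_subset (hcS E.2).1 (hcS E.2).2.1).inter_right
            (isClosed_singleton.preimage continuous_fst)
        · intro E
          exact (hcS E.2).1.inter (isClosed_singleton.preimage continuous_fst)
      obtain ⟨q, hq⟩ := key
      rw [Set.mem_iInter] at hq
      refine ⟨q, ?_, ?_⟩
      · rw [Set.mem_sInter]
        intro E hE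
        exact (hq ⟨E, hE⟩).1
      · obtain ⟨E, hE⟩ := hcne
        exact (hq ⟨E, hE⟩).2) D hDS
  have hPS : P ∈ S := hPmin.prop
  refine ⟨P, ?_, hPD, ?_⟩
  · obtain ⟨u, hu⟩ := hUn
    obtain ⟨q, hq, -⟩ := hPS.2.2 hu
    exact ⟨q, hq⟩
  · intro p hp W hW hpW
    have hCc : IsClosed (P ∩ Prod.snd ⁻¹' Wᶜ) := hPS.1.inter (hW.isClosed_compl.preimage continuous_snd)
    have hCk : IsCompact (P ∩ Prod.snd ⁻¹' Wᶜ) :=
      hD.of_isClosed_subset hCc (Set.inter_subset_left.trans hPD)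
    have hnot : ¬ U ⊆ Prod.fst '' (P ∩ Prod.snd ⁻¹' Wᶜ) := by
      intro hsub
      have hmem : (P ∩ Prod.snd ⁻¹' Wᶜ) ∈ S := ⟨hCc, Set.inter_subset_left.trans hPD, hsub⟩
      have := hPmin.le_of_le hmem Set.inter_subset_left hp
      exact this.2 hpW
    refine ⟨U \ Prod.fst '' (P ∩ Prod.snd ⁻¹' Wᶜ), ?_, ?_, ?_⟩
    · exact hU.sdiff (hCk.image continuous_fst).isClosed
    · obtain ⟨x, hx, hx'⟩ := Set.not_subset.1 hnot
      exact ⟨x, hx, hx'⟩
    · rintro x ⟨hxU, hxn⟩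
      obtain ⟨q, hq, hqx⟩ := hPS.2.2 hxU
      refine ⟨q, hq, hqx, ?_⟩
      by_contra hqW
      exact hxn ⟨q, ⟨hq, hqW⟩, hqx⟩

theorem irred_closed {T ι : Type} [TopologicalSpace T]
    (On : ι → Set T) (hO : ∀ v, IsOpen (On v)) (Y : Set (ι → ℝ)) (hYc : IsCompact Y) (m : ℕ) :
    IsClosed (Rel On Y m) := by
  have h1 : Rel On Y m = (⋂ l, {p : T × (Fin (m + 1) → ι → ℝ) | p.2 l ∈ Y}) ∩
      ⋂ v, ({p : T × (Fin (m + 1) → ι → ℝ) | p.1 ∈ (On v)ᶜ} ∪
        ⋃ l, {p : T × (Fin (m + 1) → ι → ℝ) | 1 / ((m : ℝ) + 1) ≤ |p.2 l v|}) := by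
    ext p
    simp only [Rel, Set.mem_ofPred_eq, Set.mem_inter_iff, Set.mem_iInter, Set.mem_union, Set.mem_iUnion,
      Set.mem_compl_iff]
    constructor
    · rintro ⟨h1, h2⟩
      refine ⟨h1, fun v => ?_⟩
      by_cases hv : p.1 ∈ On v
      · exact Or.inr (h2 v hv)
      · exact Or.inl hv
    · rintro ⟨h1, h2⟩
      refine ⟨h1, fun v hv => ?_⟩
      rcases h2 v with h | h
      · exact absurd hv h
      · exact h
  rw [h1]
  refine IsClosed.inter (isClosed_iInter fun l => ?_) (isClosed_iInter fun v => IsClosed.union ?_ ?_)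
  · exact hYc.isClosed.preimage (by fun_prop)
  · exact (hO v).isClosed_compl.preimage continuous_fst
  · refine isClosed_iUnion_of_finite fun l => ?_
    exact isClosed_le continuous_const (by fun_prop)

/-- First Baire category argument, followed by the choice of an irreducible restriction (Zorn). -/
theorem irred {T ι : Type} [TopologicalSpace T] [CompactSpace T] [T2Space T] [Nonempty T]
    (On : ι → Set T) (hO : ∀ v, IsOpen (On v)) (hOn : ∀ x : T, ∃ v, x ∈ On v)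
    (Y : Set (ι → ℝ)) (hYc : IsCompact Y)
    (hD : ∀ x : T, ∃ (m : ℕ) (φ : Fin m → ι → ℝ) (δ : ℝ), 0 < δ ∧ (∀ l, φ l ∈ Y) ∧
      ∀ v, x ∈ On v → ∃ l, δ ≤ |φ l v|) :
    ∃ (m : ℕ) (P : Set (T × (Fin (m + 1) → ι → ℝ))), P.Nonempty ∧ P ⊆ Rel On Y m ∧
      ∀ p ∈ P, ∀ W : Set (Fin (m + 1) → ι → ℝ), IsOpen W → p.2 ∈ W →
        ∃ V : Set T, IsOpen V ∧ V.Nonempty ∧ ∀ x ∈ V, ∃ p' ∈ P, p'.1 = x ∧ p'.2 ∈ W := by
  classical
  have hcl : ∀ m, IsClosed (Rel On Y m) := irred_closed On hO Y hYc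
  have hcomp : ∀ m, IsCompact (Rel On Y m) := by
    intro m
    have h1 : IsCompact ((Set.univ : Set T) ×ˢ (Set.univ.pi fun _ : Fin (m + 1) => Y)) :=
      isCompact_univ.prod (isCompact_univ_pi fun _ => hYc)
    refine h1.of_isClosed_subset (hcl m) ?_
    intro p hp
    exact ⟨Set.mem_univ _, fun l _ => hp.1 l⟩
  have hcov : (⋃ m : ℕ, Prod.fst '' Rel On Y m) = Set.univ := by
    rw [Set.eq_univ_iff_forall]
    intro x
    obtain ⟨m0, φ, δ, hδ, hφ, hx⟩ := hD x
    obtain ⟨v0, hv0⟩ := hOn x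
    obtain ⟨l0, -⟩ := hx v0 hv0
    obtain ⟨k, hk⟩ := exists_nat_one_div_lt hδ
    let m := max m0 k
    rw [Set.mem_iUnion]
    refine ⟨m, (x, fun l => if h : (l : ℕ) < m0 then φ ⟨l, h⟩ else φ l0), ⟨?_, ?_⟩, rfl⟩
    · intro l
      dsimp only
      split_ifs with h
      · exact hφ _
      · exact hφ _
    · intro v hv
      obtain ⟨l, hl⟩ := hx v hv
      have hlm : (l : ℕ) < m + 1 := lt_of_lt_of_le l.2 ((le_max_left m0 k).trans (Nat.le_succ _))
      refine ⟨⟨l, hlm⟩, ?_⟩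
      have h2 : (1 : ℝ) / ((m : ℝ) + 1) ≤ 1 / ((k : ℝ) + 1) := by
        apply one_div_le_one_div_of_le
        · positivity
        · have : (k : ℝ) ≤ (m : ℝ) := by exact_mod_cast le_max_right m0 k
          linarith
      dsimp only
      rw [dif_pos l.2]
      linarith [h2, hk, hl]
  obtain ⟨m, hm⟩ := nonempty_interior_of_iUnion_of_closed
    (fun m => ((hcomp m).image continuous_fst).isClosed) hcov
  obtain ⟨P, hPn, hPD, hP⟩ := irred_zorn (Rel On Y m) (hcomp m) (interior (Prod.fst '' Rel On Y m))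
    isOpen_interior hm interior_subset
  exact ⟨m, P, hPn, hPD, hP⟩

end Pool.Agent.Lib.MP_577a3c26_an
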