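import Pool.Agent.Lib.MP_577a3c26_an.Ramsey
import Pool.Agent.Lib.MP_577a3c26_an.Comb
import Pool.Agent.Lib.MP_577a3c26_an.Irred
import Pool.Agent.Lib.MP_577a3c26_an.Baire2

namespace Pool.Agent.Lib.MP_577a3c26_an

open Set Topology

/-- Distinct representatives of finitely many infinite sets. -/
theorem main_sdr {T S : Type} [Fintype S] (W : S → Set T) (hW : ∀ s, (W s).Infinite) :
    ∃ x : S → T, Function.Injective x ∧ ∀ s, x s ∈ W s := by
  classical
  have h1 : ∀ s, ∃ t : Finset T, (t : Set T) ⊆ W s ∧ t.card = Fintype.card S :=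
    fun s => (hW s).exists_subset_card_eq _
  choose t ht1 ht2 using h1
  have h2 := (Finset.all_card_le_biUnion_card_iff_exists_injective t).mp (by
    intro F
    rcases F.eq_empty_or_nonempty with rfl | ⟨s, hs⟩
    · simp
    · calc F.card ≤ Fintype.card S := Finset.card_le_univ F
        _ = (t s).card := (ht2 s).symm
        _ ≤ (F.biUnion t).card := Finset.card_le_card (Finset.subset_biUnion_of_mem t hs))
  obtain ⟨x, hx1, hx2⟩ := h2
  exact ⟨x, hx1, fun s => ht1 s (hx2 s)⟩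

/-- Positions in a finite set determine the elements. -/
theorem main_pos_inj (D : Finset ℕ) {x y : ℕ} (hx : x ∈ D) (hy : y ∈ D)
    (h : (D.filter (· < x)).card = (D.filter (· < y)).card) : x = y := by
  have key : ∀ a b : ℕ, a ∈ D → a < b → (D.filter (· < a)).card < (D.filter (· < b)).card := by
    intro a b ha hab
    refine Finset.card_lt_card ⟨?_, ?_⟩
    · intro c hc
      rw [Finset.mem_filter] at hc ⊢
      exact ⟨hc.1, hc.2.trans hab⟩
    · intro hsub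
      have := hsub (Finset.mem_filter.mpr ⟨ha, hab⟩)
      rw [Finset.mem_filter] at this
      exact lt_irrefl _ this.2
  rcases lt_trichotomy x y with h1 | h1 | h1
  · exact absurd h (key x y hx h1).ne
  · exact h1
  · exact absurd h (key y x hy h1).ne'

/-- The sign attached to a Boolean. -/
def sg (b : Bool) : ℝ := if b then 1 else -1

theorem sg_abs (b : Bool) : |sg b| = 1 := by
  cases b <;> simp [sg]

theorem exists_sg (t δ : ℝ) (h : δ ≤ |t|) : ∃ b : Bool, δ ≤ sg b * t := by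
  rcases le_total 0 t with h1 | h1
  · exact ⟨true, by simpa [sg, abs_of_nonneg h1] using h⟩
  · exact ⟨false, by simpa [sg, abs_of_nonpos h1] using h⟩

theorem neg_abs_le_sg (b : Bool) (t : ℝ) : -|t| ≤ sg b * t := by
  have h1 : |sg b * t| = |t| := by rw [abs_mul, sg_abs, one_mul]
  rw [← h1]
  exact neg_abs_le _

theorem sg_le_abs (b : Bool) (t : ℝ) : sg b * t ≤ |t| := by
  have h1 : |sg b * t| = |t| := by rw [abs_mul, sg_abs, one_mul]
  rw [← h1]
  exact le_abs_self _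

/-- The abstract non-existence theorem. -/
theorem main {T ι : Type} [TopologicalSpace T] [CompactSpace T] [T2Space T] [Nonempty T]
    (hperf : ∀ V : Set T, IsOpen V → V.Nonempty → V.Infinite)
    (Zr On : ι → Set T) (hZ : ∀ v, IsOpen (Zr v)) (hO : ∀ v, IsOpen (On v))
    (hB : HasBumps Zr On)
    (Y : Set (ι → ℝ)) (hYc : IsCompact Y) (hYconv : Convex ℝ Y) (C0 : ℝ)
    (hb : ∀ φ ∈ Y, ∀ v, |φ v| ≤ C0)
    (hC : ∀ φ ∈ Y, ∀ δ : ℝ, 0 < δ → ∃ A : Set T, A.Finite ∧ ∀ v, A ⊆ Zr v → |φ v| ≤ δ)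
    (hD : ∀ x : T, ∃ (m : ℕ) (φ : Fin m → ι → ℝ) (δ : ℝ), 0 < δ ∧ (∀ l, φ l ∈ Y) ∧
      ∀ v, x ∈ On v → ∃ l, δ ≤ |φ l v|) : False := by
  classical
  have hOn : ∀ x : T, ∃ v, x ∈ On v := by
    intro x
    obtain ⟨U, _, _, h⟩ := hB Unit (fun _ => x) (fun a b _ => Subsingleton.elim a b) ∅
      Set.finite_empty (fun _ => Set.notMem_empty _)
    obtain ⟨v, hv, _⟩ := h Finset.univ
    exact ⟨v, hv () (Finset.mem_univ _)⟩
  obtain ⟨m, P, hPne, hPR, hPirr⟩ := irred On hO hOn Y hYc hD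
  have hC0 : 0 ≤ C0 := by
    obtain ⟨x⟩ := ‹Nonempty T›
    obtain ⟨v, _⟩ := hOn x
    obtain ⟨p, hp⟩ := hPne
    exact (abs_nonneg _).trans (hb _ ((hPR hp).1 0) v)
  obtain ⟨M1, hM1⟩ : ∃ M1 : ℝ, M1 = (m : ℝ) + 1 := ⟨_, rfl⟩
  have hM1pos : 0 < M1 := by rw [hM1]; positivity
  obtain ⟨δ0, hδ0⟩ : ∃ δ0 : ℝ, δ0 = 1 / M1 := ⟨_, rfl⟩
  have hδ0pos : 0 < δ0 := by rw [hδ0]; positivity
  obtain ⟨δ, hδeq⟩ : ∃ δ : ℝ, δ = δ0 / (16 * M1) := ⟨_, rfl⟩
  have hδ : 0 < δ := by rw [hδeq]; positivity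
  obtain ⟨n, r, α, p, O, hα0, hα1, hpP, hOo, h0O, hOconv, hbai⟩ :=
    baire2 Zr hZ Y hYc hYconv hC m P hPne (fun p hp => (hPR hp).1) δ hδ
  -- open sets of points of `T`
  have hV : ∀ i, ∃ V : Set T, IsOpen V ∧ V.Nonempty ∧
      ∀ x ∈ V, ∃ p' ∈ P, p'.1 = x ∧ p'.2 - (p i).2 ∈ O := by
    intro i
    exact hPirr (p i) (hpP i) {w | w - (p i).2 ∈ O}
      (hOo.preimage (continuous_id.sub continuous_const)) (by simpa using h0O)
  choose V hVo hVne hVP using hV
  have hstar : ∀ i, ∃ q ∈ P, q.1 ∈ V i ∧ q.2 - (p i).2 ∈ O := by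
    intro i
    obtain ⟨x, hx⟩ := hVne i
    obtain ⟨q, h1, h2, h3⟩ := hVP i x hx
    exact ⟨q, h1, h2 ▸ hx, h3⟩
  choose q hqP hqV hqO using hstar
  have hA0 : ∀ i, ∀ l, ∃ A : Set T, A.Finite ∧ ∀ v, A ⊆ Zr v → |(q i).2 l v| ≤ δ :=
    fun i l => hC _ ((hPR (hqP i)).1 l) δ hδ
  choose Ast hAfin hAst using hA0
  let A0 : Set T := ⋃ i, ⋃ l, Ast i l
  have hA0fin : A0.Finite :=
    Set.finite_iUnion fun i => Set.finite_iUnion fun l => hAfin i l
  -- the number `N`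
  obtain ⟨N, hN1, hN⟩ : ∃ N : ℕ, 0 < N ∧ (n : ℝ) * (δ0 + C0) ≤ N * (δ0 / 4) := by
    obtain ⟨N, hN⟩ := exists_nat_ge ((n : ℝ) * (δ0 + C0) / (δ0 / 4))
    refine ⟨N + 1, Nat.succ_pos _, ?_⟩
    rw [div_le_iff₀ (by positivity)] at hN
    push_cast
    nlinarith
  obtain ⟨k, hk⟩ : ∃ k : ℕ, k = Fintype.card (Fin r → (Fin (m + 1) × Bool)) * N := ⟨_, rfl⟩
  obtain ⟨M, hM⟩ := comb k N n
  obtain ⟨L, hL⟩ := ramsey k M (Fin k → (Fin r → (Fin (m + 1) × Bool)))
  -- the points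
  obtain ⟨X0, hX0inj, hX0⟩ := main_sdr (S := Fin r × Fin L) (fun s => V s.1 \ A0)
    (fun s => (hperf _ (hVo s.1) (hVne s.1)).sdiff hA0fin)
  obtain ⟨U, hUd, hUA, hUD⟩ := hB (Fin r × Fin L) X0 hX0inj A0 hA0fin (fun s => (hX0 s).2)
  have hyy : ∀ s : Fin r × Fin L, ∃ p' ∈ P, p'.1 = X0 s ∧ p'.2 - (p s.1).2 ∈ O :=
    fun s => hVP s.1 (X0 s) (hX0 s).1
  choose yy hyyP hyyX hyyO using hyy
  -- the functions `v_D`
  have hvD : ∀ D : Finset ℕ, ∃ v : ι, (∀ s : Fin r × Fin L, (s.2 : ℕ) ∈ D → X0 s ∈ On v) ∧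
      ∀ a, (∀ s : Fin r × Fin L, (s.2 : ℕ) ∈ D → a ∉ U s) → a ∈ Zr v := by
    intro D
    obtain ⟨v, h1, h2⟩ := hUD (Finset.univ.filter (fun s : Fin r × Fin L => (s.2 : ℕ) ∈ D))
    refine ⟨v, fun s hs => h1 s (by simpa using hs), fun a ha => h2 a fun s hs => ha s ?_⟩
    simpa using hs
  choose vD hvD1 hvD2 using hvD
  -- colours
  have hcol : ∀ (D : Finset ℕ) (i : Fin r) (j : ℕ), ∃ lb : Fin (m + 1) × Bool,
      ∀ hj : j < L, j ∈ D → δ0 ≤ sg lb.2 * (yy (i, ⟨j, hj⟩)).2 lb.1 (vD D) := by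
    intro D i j
    by_cases hj : j < L
    · by_cases hjD : j ∈ D
      · obtain ⟨l, hl⟩ := (hPR (hyyP (i, ⟨j, hj⟩))).2 (vD D) (by
          rw [hyyX]
          exact hvD1 D (i, ⟨j, hj⟩) hjD)
        rw [← hM1, ← hδ0] at hl
        obtain ⟨b, hb'⟩ := exists_sg _ _ hl
        exact ⟨(l, b), fun _ _ => hb'⟩
      · exact ⟨(0, true), fun _ h => absurd h hjD⟩
    · exact ⟨(0, true), fun h => absurd h hj⟩
  choose col hcolp using hcol
  let f : Finset ℕ → (Fin k → (Fin r → (Fin (m + 1) × Bool))) := fun D q i =>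
    if h : ∃ x ∈ D, (D.filter (· < x)).card = q.1 then col D i h.choose else (0, true)
  have hfpos : ∀ (D : Finset ℕ) (q : Fin k) (i : Fin r) (x : ℕ), x ∈ D →
      (D.filter (· < x)).card = q.1 → f D q i = col D i x := by
    intro D q i x hx hxq
    have h : ∃ x ∈ D, (D.filter (· < x)).card = q.1 := ⟨x, hx, hxq⟩
    have h1 : h.choose = x :=
      main_pos_inj D h.choose_spec.1 hx (h.choose_spec.2.trans hxq.symm)
    simp only [f, dif_pos h, h1]
  obtain ⟨H, hHL, hHM, c0, hc0⟩ := hL f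
  -- positions
  obtain ⟨κ, hκ⟩ := Fintype.exists_le_card_fiber_of_mul_le_card (n := N) c0
    (by rw [Fintype.card_fin, hk])
  obtain ⟨Q', hQ'sub, hQ'card⟩ := Finset.exists_subset_card_eq hκ
  let Q : Finset ℕ := Q'.map Fin.valEmbedding
  have hQk : Q ⊆ Finset.range k := by
    intro x hx
    obtain ⟨y, _, rfl⟩ := Finset.mem_map.mp hx
    exact Finset.mem_range.mpr y.2
  have hQN : Q.card = N := by rw [Finset.card_map, hQ'card]
  obtain ⟨X, hXH, hXN, hXB⟩ := hM Q hQk hQN H hHM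
  have hXL : ∀ j ∈ X, j < L := fun j hj => Finset.mem_range.mp (hHL (hXH hj))
  -- the best colour
  obtain ⟨lb, hlb⟩ : ∃ lb : Fin (m + 1) × Bool,
      1 / (2 * M1) ≤ ∑ i ∈ Finset.univ.filter (fun i => κ i = lb), α i := by
    by_contra hcon
    push Not at hcon
    have h1 : ∑ lb : Fin (m + 1) × Bool, ∑ i ∈ Finset.univ.filter (fun i => κ i = lb), α i =
        ∑ i, α i := Finset.sum_fiberwise _ _ _
    have h2 : ∑ lb : Fin (m + 1) × Bool, ∑ i ∈ Finset.univ.filter (fun i => κ i = lb), α i <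
        ∑ _lb : Fin (m + 1) × Bool, 1 / (2 * M1) :=
      Finset.sum_lt_sum_of_nonempty Finset.univ_nonempty (fun lb _ => hcon lb)
    rw [h1, hα1] at h2
    have h3 : ∑ _lb : Fin (m + 1) × Bool, 1 / (2 * M1) = 1 := by
      rw [Finset.sum_const, Finset.card_univ, Fintype.card_prod, Fintype.card_fin,
        Fintype.card_bool, nsmul_eq_mul, hM1]
      push_cast
      field_simp
    rw [h3] at h2
    exact lt_irrefl _ h2
  -- the convex combination
  let yv : Fin r → ℕ → (Fin (m + 1) → ι → ℝ) := fun i j =>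
    if h : j < L then (yy (i, ⟨j, h⟩)).2 else 0
  have hyv : ∀ i j (h : j < L), yv i j = (yy (i, ⟨j, h⟩)).2 := fun i j h => by
    simp only [yv, dif_pos h]
  let z : Fin r → (Fin (m + 1) → ι → ℝ) := fun i =>
    if κ i = lb then ∑ j ∈ X, (N : ℝ)⁻¹ • yv i j else (q i).2
  have hNR : (0 : ℝ) < N := Nat.cast_pos.mpr hN1
  have hsumN : ∑ _j ∈ X, (N : ℝ)⁻¹ = 1 := by
    rw [Finset.sum_const, hXN, nsmul_eq_mul]
    exact mul_inv_cancel₀ hNR.ne'
  obtain ⟨A, hA⟩ := hbai z (by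
    intro i
    by_cases hi : κ i = lb
    · simp only [z, if_pos hi]
      refine (convex_convexHull ℝ (Prod.snd '' P)).sum_mem (fun j _ => by positivity) hsumN ?_
      intro j hj
      rw [hyv i j (hXL j hj)]
      exact subset_convexHull ℝ _ ⟨_, hyyP _, rfl⟩
    · simp only [z, if_neg hi]
      exact subset_convexHull ℝ _ ⟨_, hqP i, rfl⟩) (by
    intro i
    by_cases hi : κ i = lb
    · simp only [z, if_pos hi]
      have h1 : ∑ j ∈ X, (N : ℝ)⁻¹ • yv i j - (p i).2 =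
          ∑ j ∈ X, (N : ℝ)⁻¹ • (yv i j - (p i).2) := by
        simp only [smul_sub, Finset.sum_sub_distrib]
        rw [← Finset.sum_smul, hsumN, one_smul]
      rw [h1]
      refine hOconv.sum_mem (fun j _ => by positivity) hsumN ?_
      intro j hj
      rw [hyv i j (hXL j hj)]
      exact hyyO (i, ⟨j, hXL j hj⟩)
    · simp only [z, if_neg hi]
      exact hqO i)
  -- bad indices
  let Bad : Finset ℕ := (Finset.range L).filter (fun j => ∃ (s : Fin n) (t : Fin r × Fin L),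
    (t.2 : ℕ) = j ∧ A s ∈ U t)
  have hBad : Bad.card ≤ n := by
    have h1 : ∀ j ∈ Bad, ∃ s : Fin n, ∃ t : Fin r × Fin L, (t.2 : ℕ) = j ∧ A s ∈ U t :=
      fun j hj => (Finset.mem_filter.mp hj).2
    choose s hs using h1
    have h2 : Bad.attach.card ≤ (Finset.univ : Finset (Fin n)).card := by
      refine Finset.card_le_card_of_injOn (fun j => s j.1 j.2)
        (fun j _ => Finset.mem_coe.mpr (Finset.mem_univ _)) ?_
      intro j _ j' _ hss
      obtain ⟨t, ht1, ht2⟩ := hs j.1 j.2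
      obtain ⟨t', ht1', ht2'⟩ := hs j'.1 j'.2
      by_contra hne
      have htt : t ≠ t' := by
        rintro rfl
        exact hne (Subtype.ext (ht1.symm.trans ht1'))
      have hss' : s j.1 j.2 = s j'.1 j'.2 := hss
      exact Set.disjoint_left.mp (hUd t t' htt) ht2 (by rw [hss']; exact ht2')
    rw [Finset.card_attach] at h2
    rwa [Finset.card_univ, Fintype.card_fin] at h2
  obtain ⟨D, hDH, hDk, hDX⟩ := hXB Bad hBad
  have hDH' : D ⊆ H := fun x hx => (Finset.mem_sdiff.mp (hDH hx)).1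
  have hfD : f D = c0 := hc0 D hDH' hDk
  have hAZ : ∀ s, A s ∈ Zr (vD D) := by
    intro s
    refine hvD2 D _ fun t ht hU => ?_
    exact (Finset.mem_sdiff.mp (hDH ht)).2
      (Finset.mem_filter.mpr ⟨Finset.mem_range.mpr t.2.2, s, t, rfl, hU⟩)
  have hfin := hA (vD D) hAZ lb.1
  -- evaluation
  have hev : (∑ i, α i • z i) lb.1 (vD D) = ∑ i, α i * z i lb.1 (vD D) := by
    simp only [Finset.sum_apply, Pi.smul_apply, smul_eq_mul]
  have hzgood : ∀ i, κ i = lb → 3 / 4 * δ0 ≤ sg lb.2 * z i lb.1 (vD D) := by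
    intro i hi
    have h1 : z i lb.1 (vD D) = (N : ℝ)⁻¹ * ∑ j ∈ X, yv i j lb.1 (vD D) := by
      simp only [z, if_pos hi, Finset.sum_apply, Pi.smul_apply, smul_eq_mul, Finset.mul_sum]
    have h2 : ∀ j ∈ X, (if j ∈ Bad then -C0 else δ0) ≤ sg lb.2 * yv i j lb.1 (vD D) := by
      intro j hj
      have hjL := hXL j hj
      split_ifs with hjb
      · refine le_trans ?_ (neg_abs_le_sg _ _)
        rw [hyv i j hjL]
        exact neg_le_neg (hb _ ((hPR (hyyP _)).1 _) _)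
      · obtain ⟨hjD, hpos⟩ := hDX j (Finset.mem_sdiff.mpr ⟨hj, hjb⟩)
        obtain ⟨q0, hq0, hq0'⟩ := Finset.mem_map.mp hpos
        have h3 : f D q0 i = col D i j := hfpos D q0 i j hjD hq0'.symm
        have h4 : c0 q0 = κ := (Finset.mem_filter.mp (hQ'sub hq0)).2
        rw [hfD, h4, hi] at h3
        have h5 := hcolp D i j hjL hjD
        rw [← h3] at h5
        rw [hyv i j hjL]
        exact h5
    have h3 : (N : ℝ) * δ0 - n * (δ0 + C0) ≤ ∑ j ∈ X, sg lb.2 * yv i j lb.1 (vD D) := by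
      refine le_trans ?_ (Finset.sum_le_sum h2)
      have h4 : ∀ j ∈ X, (if j ∈ Bad then -C0 else δ0) =
          δ0 - (if j ∈ Bad then (δ0 + C0) else 0) := by
        intro j _
        split_ifs <;> ring
      rw [Finset.sum_congr rfl h4, Finset.sum_sub_distrib, Finset.sum_const, hXN, nsmul_eq_mul,
        ← Finset.sum_filter, Finset.sum_const, nsmul_eq_mul]
      have h5 : ((X.filter (fun j => j ∈ Bad)).card : ℝ) ≤ n := by
        have : (X.filter (fun j => j ∈ Bad)).card ≤ Bad.card := by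
          refine Finset.card_le_card fun j hj => ?_
          exact (Finset.mem_filter.mp hj).2
        exact_mod_cast this.trans hBad
      have h6 : ((X.filter (fun j => j ∈ Bad)).card : ℝ) * (δ0 + C0) ≤ n * (δ0 + C0) := by
        gcongr
      linarith
    have h4 : sg lb.2 * z i lb.1 (vD D) =
        (N : ℝ)⁻¹ * ∑ j ∈ X, sg lb.2 * yv i j lb.1 (vD D) := by
      rw [h1, ← Finset.mul_sum]
      ring
    rw [h4]
    have h5 : (N : ℝ) * (3 / 4 * δ0) ≤ ∑ j ∈ X, sg lb.2 * yv i j lb.1 (vD D) := by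
      linarith
    calc 3 / 4 * δ0 = (N : ℝ)⁻¹ * ((N : ℝ) * (3 / 4 * δ0)) := by
          rw [← mul_assoc, inv_mul_cancel₀ hNR.ne', one_mul]
      _ ≤ _ := by gcongr
  have hzbad : ∀ i, κ i ≠ lb → -δ ≤ sg lb.2 * z i lb.1 (vD D) := by
    intro i hi
    refine le_trans ?_ (neg_abs_le_sg _ _)
    simp only [z, if_neg hi]
    refine neg_le_neg (hAst i lb.1 (vD D) ?_)
    intro a ha
    refine hvD2 D a fun t _ hU => ?_
    exact Set.disjoint_left.mp (hUA t) hU (Set.mem_iUnion.mpr ⟨i, Set.mem_iUnion.mpr ⟨lb.1, ha⟩⟩)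
  have hlow : 3 / 4 * δ0 * (1 / (2 * M1)) - δ ≤ sg lb.2 * ∑ i, α i * z i lb.1 (vD D) := by
    have h1 : sg lb.2 * ∑ i, α i * z i lb.1 (vD D) =
        ∑ i, α i * (sg lb.2 * z i lb.1 (vD D)) := by
      rw [Finset.mul_sum]
      exact Finset.sum_congr rfl fun i _ => by ring
    have h2 : ∀ i, (if κ i = lb then α i * (3 / 4 * δ0) else 0) - α i * δ ≤
        α i * (sg lb.2 * z i lb.1 (vD D)) := by
      intro i
      split_ifs with hi
      · have h3 := mul_le_mul_of_nonneg_left (hzgood i hi) (hα0 i)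
        have h4 := mul_nonneg (hα0 i) hδ.le
        linarith
      · have h3 := mul_le_mul_of_nonneg_left (hzbad i hi) (hα0 i)
        linarith
    rw [h1]
    refine le_trans ?_ (Finset.sum_le_sum fun i _ => h2 i)
    rw [Finset.sum_sub_distrib, ← Finset.sum_filter, ← Finset.sum_mul, ← Finset.sum_mul, hα1,
      one_mul, mul_comm (3 / 4 * δ0)]
    have h3 := mul_le_mul_of_nonneg_right hlb (by positivity : (0 : ℝ) ≤ 3 / 4 * δ0)
    linarith
  have hup : sg lb.2 * ∑ i, α i * z i lb.1 (vD D) ≤ δ := by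
    rw [← hev]
    exact (sg_le_abs _ _).trans hfin
  have hnum : 3 / 4 * δ0 * (1 / (2 * M1)) = 6 * δ := by
    rw [hδeq]
    field_simp
    ring
  rw [hnum] at hlow
  linarith

end Pool.Agent.Lib.MP_577a3c26_an
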