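import Mathlib

namespace Pool.Agent.Lib.MP_577a3c26_an

/-- the statement of Ramsey's theorem on arbitrary large finite sets -/
private def ram_P (k : ℕ) (C : Type) : Prop :=
  ∀ M : ℕ, ∃ L : ℕ, ∀ S : Finset ℕ, L ≤ S.card → ∀ f : Finset ℕ → C,
    ∃ H ⊆ S, H.card = M ∧ ∃ c : C, ∀ D : Finset ℕ, D ⊆ H → D.card = k → f D = c

private theorem ram_end (k : ℕ) (C : Type) (hP : ram_P k C) (n : ℕ) :
    ∃ L : ℕ, ∀ S : Finset ℕ, L ≤ S.card → ∀ f : Finset ℕ → C,
      ∃ A ⊆ S, A.card = n ∧ ∃ g : ℕ → C, ∀ a ∈ A, ∀ D : Finset ℕ, D ⊆ A → D.card = k →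
        (∀ d ∈ D, a < d) → f (insert a D) = g a := by
  classical
  induction n with
  | zero =>
    refine ⟨0, fun S _ f => ⟨∅, by simp, by simp, fun _ => f ∅, ?_⟩⟩
    intro a ha
    simp at ha
  | succ n ih =>
    obtain ⟨L₁, h₁⟩ := ih
    obtain ⟨L₂, h₂⟩ := hP L₁
    refine ⟨L₂ + 1, fun S hS f => ?_⟩
    have hne : S.Nonempty := by
      rw [← Finset.card_pos]
      omega
    obtain ⟨a, haS, hmin⟩ : ∃ a ∈ S, ∀ b ∈ S, a ≤ b :=
      ⟨S.min' hne, S.min'_mem hne, fun b hb => S.min'_le b hb⟩
    obtain ⟨H, hHS, hHc, c, hc⟩ := h₂ (S.erase a)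
      (by rw [Finset.card_erase_of_mem haS]; omega) (fun D => f (insert a D))
    obtain ⟨A, hAH, hAc, g, hg⟩ := h₁ H hHc.ge f
    have hlt : ∀ b ∈ A, a < b := by
      intro b hb
      have h1 := hHS (hAH hb)
      rw [Finset.mem_erase] at h1
      exact lt_of_le_of_ne (hmin b h1.2) (Ne.symm h1.1)
    have haA : a ∉ A := fun h => lt_irrefl a (hlt a h)
    refine ⟨insert a A, ?_, ?_, Function.update g a c, ?_⟩
    · intro b hb
      rw [Finset.mem_insert] at hb
      rcases hb with rfl | hb
      · exact haS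
      · exact Finset.mem_of_mem_erase (hHS (hAH hb))
    · rw [Finset.card_insert_of_notMem haA, hAc]
    · intro b hb D hD hDk hlt'
      have haD : a ∉ D := by
        intro h
        have h1 := hlt' a h
        rw [Finset.mem_insert] at hb
        rcases hb with rfl | hb
        · exact lt_irrefl _ h1
        · exact lt_asymm h1 (hlt b hb)
      have hDA : D ⊆ A := by
        intro d hd
        have h1 := hD hd
        rw [Finset.mem_insert] at h1
        rcases h1 with rfl | h1
        · exact absurd hd haD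
        · exact h1
      rw [Finset.mem_insert] at hb
      rcases hb with rfl | hb
      · rw [Function.update_self]
        exact hc D (hDA.trans hAH) hDk
      · have hne : b ≠ a := fun h => haA (h ▸ hb)
        rw [Function.update_of_ne hne]
        exact hg b hb D hDA hDk hlt'

private theorem ram_all (k : ℕ) (C : Type) [Finite C] : ram_P k C := by
  classical
  induction k with
  | zero =>
    intro M
    refine ⟨M, fun S hS f => ?_⟩
    obtain ⟨H, hH, hc⟩ := Finset.exists_subset_card_eq hS
    refine ⟨H, hH, hc, f ∅, ?_⟩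
    intro D _ hD
    rw [Finset.card_eq_zero.1 hD]
  | succ k ih =>
    intro M
    have := Fintype.ofFinite C
    obtain ⟨L, hL⟩ := ram_end k C ih (Fintype.card C * M)
    refine ⟨L, fun S hS f => ?_⟩
    obtain ⟨A, hAS, hAc, g, hg⟩ := hL S hS f
    obtain ⟨c, _, hc⟩ := Finset.exists_le_card_fiber_of_mul_le_card_of_maps_to
      (s := A) (t := Finset.univ) (f := g) (n := M) (fun _ _ => Finset.mem_univ _)
      ⟨f ∅, Finset.mem_univ _⟩ (by rw [hAc, Finset.card_univ])
    obtain ⟨H, hH, hHc⟩ := Finset.exists_subset_card_eq hc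
    refine ⟨H, hH.trans ((Finset.filter_subset _ _).trans hAS), hHc, c, ?_⟩
    intro D hD hDk
    have hne : D.Nonempty := by
      rw [← Finset.card_pos]
      omega
    set a := D.min' hne with ha
    have haD : a ∈ D := D.min'_mem hne
    have h1 := hH (hD haD)
    rw [Finset.mem_filter] at h1
    have h2 := hg a h1.1 (D.erase a) (fun d hd => by
      have := hH (hD (Finset.mem_of_mem_erase hd))
      exact (Finset.mem_filter.1 this).1) (by rw [Finset.card_erase_of_mem haD]; omega)
      (fun d hd => by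
        rw [Finset.mem_erase] at hd
        exact lt_of_le_of_ne (D.min'_le d hd.2) (Ne.symm hd.1))
    rw [Finset.insert_erase haD] at h2
    rw [h2, h1.2]

/-- Finite Ramsey theorem for `k`-element sets and finitely many colours. -/
theorem ramsey (k M : ℕ) (C : Type) [Finite C] :
    ∃ L : ℕ, ∀ f : Finset ℕ → C, ∃ H : Finset ℕ, H ⊆ Finset.range L ∧ H.card = M ∧
      ∃ c : C, ∀ D : Finset ℕ, D ⊆ H → D.card = k → f D = c := by
  obtain ⟨L, hL⟩ := ram_all k C M
  exact ⟨L, fun f => hL (Finset.range L) (by simp) f⟩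

end Pool.Agent.Lib.MP_577a3c26_an
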