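import Pool.Agent.Lib.MP_577a3c26_an.Bumps
import Pool.Agent.Lib.MP_577a3c26_an.Main

namespace Pool.Agent.Lib.MP_577a3c26_an

open Set Topology Filter

set_option linter.unusedSectionVars false

variable {K : Type} [TopologicalSpace K] [CompactSpace K]

theorem red_min {α : Type*} (I : Finset α) (d : α → ℝ) (h : ∀ y ∈ I, 0 < d y) :
    ∃ δ : ℝ, 0 < δ ∧ ∀ y ∈ I, δ ≤ d y := by
  classical
  induction I using Finset.induction_on with
  | empty => exact ⟨1, one_pos, by simp⟩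
  | insert a s ha ih =>
    obtain ⟨δ, h1, h2⟩ := ih (fun y hy => h y (Finset.mem_insert_of_mem hy))
    refine ⟨min δ (d a), lt_min h1 (h a (Finset.mem_insert_self a s)), fun y hy => ?_⟩
    rcases Finset.mem_insert.mp hy with rfl | hy
    · exact min_le_right _ _
    · exact (min_le_left _ _).trans (h2 y hy)

theorem red_ball (y : StrongDual ℝ C(K, ℝ)) :
    y ∈ Metric.closedBall (0 : StrongDual ℝ C(K, ℝ)) 1 ↔ ‖y‖ ≤ 1 :=
  mem_closedBall_zero_iff (E := StrongDual ℝ C(K, ℝ))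

theorem red_smul (c : ℝ) (y : StrongDual ℝ C(K, ℝ)) : ‖c • y‖ ≤ ‖c‖ * ‖y‖ :=
  ContinuousLinearMap.opNorm_smul_le c y

/-- continuity of functionals on the weak topology -/
theorem red_eval_continuous (y : C(K, ℝ) →L[ℝ] ℝ) :
    Continuous (fun g : WeakSpace ℝ C(K, ℝ) => y ((toWeakSpace ℝ C(K, ℝ)).symm g)) :=
  WeakBilin.eval_continuous (topDualPairing ℝ C(K, ℝ)).flip y

/-- the inclusion of continuous maps in the space of functions, with its pointwise topology -/
theorem red_incl_continuous :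
    Continuous (fun f : C(K, ℝ) => (⟨f, f.continuous⟩ : {f : K → ℝ // Continuous f})) :=
  Continuous.subtype_mk (continuous_pi fun x => continuous_eval_const x) _

/-- basic neighbourhoods in the pointwise topology -/
theorem red_nhds_point (U : Set {f : K → ℝ // Continuous f}) (hU : IsOpen U)
    (f : {f : K → ℝ // Continuous f}) (hf : f ∈ U) :
    ∃ A : Finset K, ∀ g : {f : K → ℝ // Continuous f}, (∀ a ∈ A, g.1 a = f.1 a) → g ∈ U := by
  obtain ⟨V, hV, rfl⟩ := isOpen_induced_iff.mp hU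
  obtain ⟨I, u, h1, h2⟩ := isOpen_pi_iff.mp hV f.1 hf
  refine ⟨I, fun g hg => h2 ?_⟩
  intro a ha
  rw [hg a ha]
  exact (h1 a ha).2

/-- basic neighbourhoods in the weak topology -/
theorem red_nhds_weak (U : Set (WeakSpace ℝ C(K, ℝ))) (hU : IsOpen U)
    (g0 : WeakSpace ℝ C(K, ℝ)) (hg : g0 ∈ U) :
    ∃ (S : Finset (C(K, ℝ) →L[ℝ] ℝ)) (δ : ℝ), 0 < δ ∧ ∀ g : WeakSpace ℝ C(K, ℝ),
      (∀ y ∈ S, |y ((toWeakSpace ℝ C(K, ℝ)).symm g) - y ((toWeakSpace ℝ C(K, ℝ)).symm g0)| < δ) →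
        g ∈ U := by
  obtain ⟨V, hV, rfl⟩ := isOpen_induced_iff.mp hU
  obtain ⟨I, u, h1, h2⟩ := isOpen_pi_iff.mp hV _ hg
  have h3 : ∀ y ∈ I, ∃ δ : ℝ, 0 < δ ∧ ∀ t : ℝ,
      |t - y ((toWeakSpace ℝ C(K, ℝ)).symm g0)| < δ → t ∈ u y := by
    intro y hy
    obtain ⟨δ, hδ, h4⟩ := Metric.isOpen_iff.mp (h1 y hy).1 _ (h1 y hy).2
    exact ⟨δ, hδ, fun t ht => h4 (by rw [Metric.mem_ball, Real.dist_eq]; exact ht)⟩
  choose! d hd1 hd2 using h3
  obtain ⟨δ, hδ, h5⟩ := red_min I d hd1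
  refine ⟨I, δ, hδ, fun g h => h2 ?_⟩
  intro y hy
  exact hd2 y hy _ (lt_of_lt_of_le (h y hy) (h5 y hy))

/-- The index type of the functions with values in `[0,1]`. -/
abbrev Idx (K : Type) [TopologicalSpace K] : Type := {v : C(K, ℝ) // ∀ x, 0 ≤ v x ∧ v x ≤ 1}

theorem reduce [T2Space K] [Nonempty K] (hperf : ∀ V : Set K, IsOpen V → V.Nonempty → V.Infinite)
    (h : {f : K → ℝ // Continuous f} ≃ₜ WeakSpace ℝ C(K, ℝ)) : False := by
  -- the map in terms of `C(K, ℝ)`
  let G : C(K, ℝ) → C(K, ℝ) := fun f => (toWeakSpace ℝ C(K, ℝ)).symm (h ⟨f, f.continuous⟩)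
  have hGc : ∀ y : C(K, ℝ) →L[ℝ] ℝ,
      Continuous (fun f : {f : K → ℝ // Continuous f} => y ((toWeakSpace ℝ C(K, ℝ)).symm (h f))) :=
    fun y => (red_eval_continuous y).comp h.continuous
  have hGc' : ∀ y : C(K, ℝ) →L[ℝ] ℝ, Continuous (fun f : C(K, ℝ) => y (G f)) :=
    fun y => (hGc y).comp red_incl_continuous
  -- Baire category
  let F : ℕ → Set C(K, ℝ) := fun n => {f | ∀ y : C(K, ℝ) →L[ℝ] ℝ, ‖y‖ ≤ 1 → |y (G f)| ≤ n}
  have hF : ∀ n, IsClosed (F n) := by
    intro n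
    have : F n = ⋂ (y : C(K, ℝ) →L[ℝ] ℝ) (_ : ‖y‖ ≤ 1), {f | |y (G f)| ≤ n} := by
      ext f
      simp [F]
    rw [this]
    exact isClosed_iInter fun y => isClosed_iInter fun _ =>
      isClosed_le (hGc' y).abs continuous_const
  have hU : ⋃ n, F n = univ := by
    refine eq_univ_of_forall fun f => ?_
    obtain ⟨n, hn⟩ := exists_nat_ge ‖G f‖
    refine mem_iUnion.mpr ⟨n, fun y hy => ?_⟩
    calc |y (G f)| ≤ ‖y‖ * ‖G f‖ := y.le_opNorm (G f)
      _ ≤ 1 * ‖G f‖ := by gcongr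
      _ ≤ n := by rw [one_mul]; exact hn
  obtain ⟨n, f0, hf0⟩ := nonempty_interior_of_iUnion_of_closed hF hU
  obtain ⟨ε, hε, hball⟩ := Metric.isOpen_iff.mp isOpen_interior f0 hf0
  -- the maps `d`
  let e : ℝ := ε / 2
  have he : 0 < e := half_pos hε
  have hmem : ∀ v : Idx K, f0 + e • v.1 ∈ F n := by
    intro v
    refine interior_subset (hball ?_)
    rw [Metric.mem_ball, dist_eq_norm, add_sub_cancel_left]
    have h1 : ‖v.1‖ ≤ 1 := by
      rw [ContinuousMap.norm_le _ zero_le_one]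
      intro x
      rw [Real.norm_eq_abs, abs_le]
      exact ⟨by linarith [(v.2 x).1], (v.2 x).2⟩
    calc ‖e • v.1‖ = e * ‖v.1‖ := by rw [norm_smul, Real.norm_of_nonneg he.le]
      _ ≤ e * 1 := by gcongr
      _ < ε := by simp only [e]; linarith
  let d : Idx K → C(K, ℝ) := fun v => G (f0 + e • v.1) - G f0
  let ev : WeakDual ℝ C(K, ℝ) →ₗ[ℝ] (Idx K → ℝ) :=
    { toFun := fun y v => y (d v)
      map_add' := fun y z => by funext v; rfl
      map_smul' := fun c y => by funext v; rfl }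
  let B : Set (WeakDual ℝ C(K, ℝ)) :=
    WeakDual.toStrongDual ⁻¹' Metric.closedBall (0 : StrongDual ℝ C(K, ℝ)) 1
  have hBc : IsCompact B := WeakDual.isCompact_closedBall 0 1
  have hBn : ∀ y ∈ B, ‖WeakDual.toStrongDual y‖ ≤ 1 := by
    intro y hy
    exact (red_ball _).mp hy
  let Y : Set (Idx K → ℝ) := ev '' B
  have hYc : IsCompact Y := hBc.image (continuous_pi fun v => WeakDual.eval_continuous (d v))
  have hYconv : Convex ℝ Y := by
    refine Convex.linear_image ?_ ev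
    exact (convex_closedBall (0 : StrongDual ℝ C(K, ℝ)) 1).linear_preimage
      WeakDual.toStrongDual.toLinearMap
  refine main hperf (fun v : Idx K => interior {x | v.1 x = 0})
    (fun v : Idx K => interior {x | v.1 x = 1}) (fun v => isOpen_interior)
    (fun v => isOpen_interior) (hasBumps K) Y hYc hYconv (2 * n) ?_ ?_ ?_
  · rintro φ ⟨y, hy, rfl⟩ v
    have h1 : |WeakDual.toStrongDual y (G (f0 + e • v.1))| ≤ n :=
      hmem v (WeakDual.toStrongDual y) (hBn y hy)
    have h2 : |WeakDual.toStrongDual y (G f0)| ≤ n :=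
      interior_subset hf0 (WeakDual.toStrongDual y) (hBn y hy)
    have h3 : ev y v = WeakDual.toStrongDual y (G (f0 + e • v.1)) -
        WeakDual.toStrongDual y (G f0) := by
      rw [← map_sub]
      rfl
    rw [h3]
    rw [abs_le] at h1 h2 ⊢
    constructor <;> linarith [h1.1, h1.2, h2.1, h2.2]
  · rintro φ ⟨y, hy, rfl⟩ δ hδ
    let y' : C(K, ℝ) →L[ℝ] ℝ := WeakDual.toStrongDual y
    obtain ⟨A, hA⟩ := red_nhds_point
      {f | |y' ((toWeakSpace ℝ C(K, ℝ)).symm (h f)) - y' (G f0)| < δ}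
      (isOpen_lt ((hGc y').sub continuous_const).abs continuous_const)
      ⟨f0, f0.continuous⟩ (by
        change |y' (G f0) - y' (G f0)| < δ
        simpa using hδ)
    refine ⟨A, A.finite_toSet, fun v hv => ?_⟩
    have h1 := hA ⟨(f0 + e • v.1 : C(K, ℝ)), (f0 + e • v.1 : C(K, ℝ)).continuous⟩ (by
      intro a ha
      have h2 : v.1 a = 0 := (interior_subset : interior {x | v.1 x = 0} ⊆ _) (hv ha)
      simp [h2])
    have h3 : ev y v = y' (G (f0 + e • v.1)) - y' (G f0) := by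
      rw [← map_sub]
      rfl
    rw [h3]
    exact le_of_lt h1
  · intro x
    obtain ⟨S, δ, hδ, hS⟩ := red_nhds_weak {g | |(h.symm g).1 x - f0 x| < e}
      (isOpen_lt ((((continuous_apply x).comp continuous_subtype_val).comp
        h.symm.continuous).sub continuous_const).abs continuous_const)
      (h ⟨f0, f0.continuous⟩) (by simpa using he)
    have hSup : ∃ C : ℝ, 0 < C ∧ ∀ y ∈ S, ‖y‖ ≤ C := by
      refine ⟨1 + ∑ y ∈ S, ‖y‖, by positivity, fun y hy => ?_⟩
      have := Finset.single_le_sum (f := fun y : C(K, ℝ) →L[ℝ] ℝ => ‖y‖)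
        (fun z _ => norm_nonneg z) hy
      linarith
    obtain ⟨C, hC, hCS⟩ := hSup
    refine ⟨S.card, fun l v => C⁻¹ * (S.equivFin.symm l).1 (d v), δ / C, by positivity, ?_, ?_⟩
    · intro l
      refine ⟨StrongDual.toWeakDual (C⁻¹ • (S.equivFin.symm l).1), ?_, ?_⟩
      · have h1 : (C⁻¹ • (S.equivFin.symm l).1 : StrongDual ℝ C(K, ℝ)) ∈
            Metric.closedBall (0 : StrongDual ℝ C(K, ℝ)) 1 := by
          rw [red_ball]
          refine (red_smul _ _).trans ?_
          rw [Real.norm_of_nonneg (by positivity), inv_mul_le_iff₀ hC, mul_one]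
          exact hCS _ (S.equivFin.symm l).2
        exact h1
      · rfl
    · intro v hv
      by_contra hcon
      push Not at hcon
      have h1 : h ⟨(f0 + e • v.1 : C(K, ℝ)), (f0 + e • v.1 : C(K, ℝ)).continuous⟩ ∈
          {g : WeakSpace ℝ C(K, ℝ) | |(h.symm g).1 x - f0 x| < e} := by
        refine hS _ fun y hy => ?_
        have h2 := hcon (S.equivFin ⟨y, hy⟩)
        rw [Equiv.symm_apply_apply, abs_mul, abs_of_pos (inv_pos.mpr hC), div_eq_inv_mul] at h2
        have h3 := lt_of_mul_lt_mul_left h2 (inv_pos.mpr hC).le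
        have h4 : y (d v) = y (G (f0 + e • v.1)) - y (G f0) := by
          rw [← map_sub]
        rw [h4] at h3
        exact h3
      have h5 : v.1 x = 1 := (interior_subset : interior {x | v.1 x = 1} ⊆ _) hv
      simp only [Set.mem_ofPred_eq, Homeomorph.symm_apply_apply] at h1
      simp [h5, abs_of_pos he] at h1

end Pool.Agent.Lib.MP_577a3c26_an
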